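import Pool.Agent.W953.TG.Low

/-!
# 2-to-1 games with few and with many numbers of edges

A 2-to-1 game with `N` vertices on each side and alphabet `[q]` is given by `N ^ 2 * q ^ q` bits that
say for all `u`, `v`, `π` whether `u` and `v` are adjacent with the constraint `π`. `Easy q δ` says
that circuits of polynomial size tell the games of value at most `δ` from those of value one, and
`EasyOn q δ t W` that this can be done by such circuits with at most `t N` NOT gates which, for every
`a`, have to be right only on the games with at least `a` and less than `a + W N` edges.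

Here it is shown that `EasyOn q δ t W` and `Easy q δ` are equivalent if `1 ≤ W ≤ 2 ^ t`, and that for
every `δ > 0` and a suitable `q` there are no such circuits without NOT gates if `W ≥ N ^ ε`.
-/

set_option autoImplicit false

namespace Pool.Agent.Results.MP_ec946a_lc.EdgeCountWindows

open Filter Pool.Agent.W953.TG
open Pool.Agent (H540R2.Circuit)

/-- (1) If `1 ≤ W N ≤ 2 ^ t N` then `EasyOn q δ t W` is equivalent to `Easy q δ`. For every `δ > 0`
there is an alphabet size `q ≥ 1` such that: (2) if `N ≤ W N ^ d` for a constant `d` and infinitely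
many `N` then `EasyOn q δ 0 W` is false; (3) for `N' ≤ N` large and `N' ^ 2 < W`, a circuit without
NOT gates that is right on all games with `N` vertices on each side and less than `W` edges has at
least `(2 ^ (N' ^ (1 / 14)) - 1) / 3` gates. -/
theorem result :
    (∀ (q : ℕ) (δ : ℝ) (t W : ℕ → ℕ), (∀ N, 1 ≤ W N ∧ W N ≤ 2 ^ t N) →
      (EasyOn q δ t W ↔ Easy q δ)) ∧
    (∀ δ : ℝ, 0 < δ → ∃ q : ℕ, 1 ≤ q ∧
      (∀ (W : ℕ → ℕ) (d : ℕ), (∃ᶠ N : ℕ in atTop, N ≤ W N ^ d) →
        ¬ EasyOn q δ (fun _ => 0) W) ∧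
      ∃ N0 : ℕ, ∀ N' N W : ℕ, N0 ≤ N' → N' ≤ N → N' ^ 2 < W →
        ∀ D : H540R2.Circuit (bits N q), D.nots = 0 → (∀ I, edges I < W → Right δ D I) →
        (2 : ℝ) ^ ((N' : ℝ) ^ (1 / 14 : ℝ)) ≤ 3 * D.size + 1) := by
  refine ⟨easy_iff, fun δ hδ => ?_⟩
  obtain ⟨q, hq, N0, h⟩ := low δ hδ
  exact ⟨q, hq, fun W d hW => not_on h W d hW, N0, h⟩

end Pool.Agent.Results.MP_ec946a_lc.EdgeCountWindows
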